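import Pool.Agent.W564.SC.Defs

/-!
# S_CN1
-/

set_option autoImplicit false

namespace Pool.Agent.W177.SC

open Pool.Agent.W564.SC

theorem cn1 : S_CN1 := by
  intro m i q N ρ c a _ hq _ h
  have hq0 : (0 : ℤ) < (q : ℤ) := by exact_mod_cast hq
  -- the gaps
  have hgap : ∀ l l1 : ℤ, l ∈ Bad m i ρ c a N → l1 ∈ Bad m i ρ c a N → l < l1 →
      l + q ≤ l1 := by
    intro l l1 hl hl1 hlt
    by_contra hcon
    push Not at hcon
    obtain ⟨_, _, t, ht⟩ := hl
    obtain ⟨_, _, t1, ht1⟩ := hl1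
    have h1 : (((l1 - l).toNat : ℕ) : ℤ) = l1 - l := Int.toNat_of_nonneg (by linarith)
    have h2 := h (l1 - l).toNat (by omega) (by omega) (t1 - t)
    have h3 : (((l1 - l).toNat : ℕ) : ℝ) = (l1 : ℝ) - l := by
      have : ((((l1 - l).toNat : ℕ) : ℤ) : ℝ) = ((l1 - l : ℤ) : ℝ) := by rw [h1]
      rw [Int.cast_natCast] at this
      rw [this]
      push_cast
      ring
    rw [h3] at h2
    have e : (i : ℝ) * (((l1 : ℝ) - l) / m) - ((t1 - t : ℤ) : ℝ) =
        (c + i * (l1 / m) - t1) - (c + i * (l / m) - t) := by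
      push_cast
      ring
    rw [e] at h2
    have h4 := abs_sub (c + i * ((l1 : ℝ) / m) - t1) (c + i * ((l : ℝ) / m) - t)
    linarith
  have h1 : (Bad m i ρ c a N).ncard ≤ (Set.Iio (N / q + 1) : Set ℕ).ncard := by
    refine Set.ncard_le_ncard_of_injOn (fun l => ((l - a) / (q : ℤ)).toNat) ?_ ?_
      (Set.finite_Iio _)
    · intro l hl
      obtain ⟨h2, h3, _⟩ := hl
      rw [Set.mem_Iio]
      have h4 : (l - a) / (q : ℤ) ≤ ((N / q : ℕ) : ℤ) := by
        rw [Int.natCast_div]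
        exact Int.ediv_le_ediv hq0 (by linarith)
      generalize N / q = z at h4 ⊢
      omega
    · intro l hl l1 hl1 hll
      have g1 : 0 ≤ (l - a) / (q : ℤ) := Int.ediv_nonneg (by linarith [hl.1]) hq0.le
      have g2 : 0 ≤ (l1 - a) / (q : ℤ) := Int.ediv_nonneg (by linarith [hl1.1]) hq0.le
      have g3 : (l - a) / (q : ℤ) = (l1 - a) / (q : ℤ) := by
        simp only at hll
        omega
      have key : ∀ x y : ℤ, x + q ≤ y → (x - a) / (q : ℤ) < (y - a) / (q : ℤ) := by
        intro x y hxy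
        have e1 : (x - a + 1 * q) / (q : ℤ) = (x - a) / (q : ℤ) + 1 :=
          Int.add_mul_ediv_right _ _ hq0.ne'
        have e2 : (x - a + 1 * q) / (q : ℤ) ≤ (y - a) / (q : ℤ) :=
          Int.ediv_le_ediv hq0 (by linarith)
        omega
      rcases lt_trichotomy l l1 with h2 | h2 | h2
      · have := key _ _ (hgap l l1 hl hl1 h2)
        omega
      · exact h2
      · have := key _ _ (hgap l1 l hl1 hl h2)
        omega
  have h2 : (Set.Iio (N / q + 1) : Set ℕ).ncard = N / q + 1 := by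
    rw [← Finset.coe_range, Set.ncard_coe_finset, Finset.card_range]
  rw [h2] at h1
  have h3 : ((Bad m i ρ c a N).ncard : ℝ) ≤ ((N / q + 1 : ℕ) : ℝ) := by exact_mod_cast h1
  have h4 : ((N / q : ℕ) : ℝ) ≤ (N : ℝ) / q := Nat.cast_div_le
  push_cast at h3
  push_cast at h4
  linarith

end Pool.Agent.W177.SC
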